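import Pool.Agent.H34.PS.Targets

/-!
# psq_modules row RD (helper2): the average of the number of square roots
-/

set_option autoImplicit false

open Finset

namespace Pool.Agent.H2.PSQ

open Pool.Agent.H34.PS

theorem dvd_of_sq_dvd {b N f : ℕ} (hb : Squarefree b) (hN : 1 ≤ N) (h : f ^ 2 ∣ b * N ^ 2) :
    f ∣ N := by
  have hg : 0 < Nat.gcd f N := Nat.gcd_pos_of_pos_right _ hN
  obtain ⟨f', hf'⟩ := Nat.gcd_dvd_left f N
  obtain ⟨N', hN'⟩ := Nat.gcd_dvd_right f N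
  have hcop : Nat.Coprime f' N' := by
    have h1 : Nat.gcd f N = Nat.gcd f N * Nat.gcd f' N' := by
      rw [← Nat.gcd_mul_left, ← hf', ← hN']
    have h2 : Nat.gcd f N * Nat.gcd f' N' = Nat.gcd f N * 1 := by rw [← h1, mul_one]
    exact Nat.eq_of_mul_eq_mul_left hg h2
  have h3 : Nat.gcd f N ^ 2 * f' ^ 2 ∣ Nat.gcd f N ^ 2 * (b * N' ^ 2) := by
    have h4 : f ^ 2 = Nat.gcd f N ^ 2 * f' ^ 2 := by
      rw [← mul_pow, ← hf']
    have h5 : b * N ^ 2 = Nat.gcd f N ^ 2 * (b * N' ^ 2) := by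
      have : N ^ 2 = Nat.gcd f N ^ 2 * N' ^ 2 := by rw [← mul_pow, ← hN']
      rw [this]; ring
    rw [← h4, ← h5]; exact h
  have h6 : f' ^ 2 ∣ b * N' ^ 2 := Nat.dvd_of_mul_dvd_mul_left (pow_pos hg 2) h3
  have h7 : f' ^ 2 ∣ b := (Nat.Coprime.pow 2 2 hcop).dvd_of_dvd_mul_right h6
  have h8 : IsUnit f' := hb f' (by rw [← sq]; exact h7)
  have h9 : f' = 1 := Nat.isUnit_iff.1 h8
  rw [h9, mul_one] at hf'
  rw [hf']; exact Nat.gcd_dvd_right f N

theorem pf_RD (hA : T_RA) (hB : T_RB) (hC : T_RC) : T_RD := by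
  intro b v y hb2 hbs hv
  obtain ⟨hC0, -, hC2⟩ := hC b hb2 hbs
  set N : ℕ := b * v with hNdef
  have hN1 : 1 ≤ N := Nat.mul_pos (by omega) hv
  have hN0 : N ≠ 0 := by omega
  have hDN : b ^ 3 * v ^ 2 = b * N ^ 2 := by rw [hNdef]; ring
  set G : ℕ → ℝ := fun o => ∑ t ∈ o.divisors, chi (b : ℤ) t with hG
  have hGnn : ∀ o, 0 ≤ G o := hC0
  have hkey : ∀ d ∈ Icc 1 y, (rho (b ^ 3 * v ^ 2) d : ℝ) ≤
      ∑ f ∈ N.divisors, ∑ g ∈ N.divisors, ∑ e ∈ Icc 1 (y / (f ^ 2 * g)),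
        if d = f ^ 2 * g * e then 4 * (f : ℝ) * G (op e) else 0 := by
    intro d hd
    rw [mem_Icc] at hd
    have hnn : ∀ f ∈ N.divisors, ∀ g ∈ N.divisors, ∀ e ∈ Icc 1 (y / (f ^ 2 * g)),
        0 ≤ (if d = f ^ 2 * g * e then 4 * (f : ℝ) * G (op e) else 0) := by
      intro f _ g _ e _
      split_ifs
      · have := hGnn (op e)
        positivity
      · exact le_refl 0
    have hD1 : 1 ≤ b ^ 3 * v ^ 2 := Nat.mul_pos (pow_pos (by omega) 3) (pow_pos hv 2)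
    rcases hA (b ^ 3 * v ^ 2) d hD1 hd.1 with h0 | ⟨f, g, e, hde, hfg, hgs, hcop, hle⟩
    · rw [h0]
      simp only [Nat.cast_zero]
      exact sum_nonneg fun f hf => sum_nonneg fun g hg => sum_nonneg fun e he => hnn f hf g hg e he
    · have hfD : f ^ 2 ∣ b * N ^ 2 := by
        rw [← hDN]; exact (Dvd.intro _ rfl).trans hfg
      have hfN : f ∣ N := dvd_of_sq_dvd hbs hN1 hfD
      obtain ⟨h, hh⟩ := hfN
      have hf1 : 1 ≤ f := by
        rcases Nat.eq_zero_or_pos f with h0 | h0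
        · rw [h0, zero_mul] at hh; omega
        · exact h0
      have hh1 : 1 ≤ h := by
        rcases Nat.eq_zero_or_pos h with h0 | h0
        · rw [h0, mul_zero] at hh; omega
        · exact h0
      have hquot : b ^ 3 * v ^ 2 / f ^ 2 = b * h ^ 2 := by
        rw [hDN, hh]
        have : b * (f * h) ^ 2 = f ^ 2 * (b * h ^ 2) := by ring
        rw [this, Nat.mul_div_cancel_left _ (pow_pos hf1 2)]
      rw [hquot] at hcop hle
      have hgD : g ∣ b * h ^ 2 := by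
        have h1 : f ^ 2 * g ∣ f ^ 2 * (b * h ^ 2) := by
          have : f ^ 2 * (b * h ^ 2) = b ^ 3 * v ^ 2 := by rw [hDN, hh]; ring
          rw [this]; exact hfg
        exact Nat.dvd_of_mul_dvd_mul_left (pow_pos hf1 2) h1
      have hgN : g ∣ N := by
        have h1 : b * h ^ 2 ∣ N ^ 3 := by
          have hbN : b ∣ N := Dvd.intro _ rfl
          have hhN : h ∣ N := ⟨f, by rw [hh]; ring⟩
          have : N ^ 3 = N * N ^ 2 := by ring
          rw [this]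
          exact Nat.mul_dvd_mul hbN (pow_dvd_pow_of_dvd hhN 2)
        exact (hgs.dvd_pow_iff_dvd (by norm_num : (3 : ℕ) ≠ 0)).1 (hgD.trans h1)
      have hg1 : 1 ≤ g := Nat.pos_of_dvd_of_pos hgN hN1
      have he1 : 1 ≤ e := by
        rcases Nat.eq_zero_or_pos e with h0 | h0
        · rw [h0, mul_zero] at hde; omega
        · exact h0
      have hrb := hB b h e hb2 hbs hh1 he1 hcop
      have hval : (rho (b ^ 3 * v ^ 2) d : ℝ) ≤ 4 * (f : ℝ) * G (op e) := by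
        have h1 : (rho (b ^ 3 * v ^ 2) d : ℝ) ≤ (f : ℝ) * (rho (b * h ^ 2) e : ℝ) := by
          exact_mod_cast hle
        have h2 : (f : ℝ) * (rho (b * h ^ 2) e : ℝ) ≤ (f : ℝ) * (4 * G (op e)) :=
          mul_le_mul_of_nonneg_left hrb (Nat.cast_nonneg f)
        calc (rho (b ^ 3 * v ^ 2) d : ℝ) ≤ (f : ℝ) * (4 * G (op e)) := h1.trans h2
          _ = 4 * (f : ℝ) * G (op e) := by ring
      have hfmem : f ∈ N.divisors := Nat.mem_divisors.2 ⟨⟨h, hh⟩, hN0⟩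
      have hgmem : g ∈ N.divisors := Nat.mem_divisors.2 ⟨hgN, hN0⟩
      have hemem : e ∈ Icc 1 (y / (f ^ 2 * g)) := by
        rw [mem_Icc]
        refine ⟨he1, ?_⟩
        rw [Nat.le_div_iff_mul_le (Nat.mul_pos (pow_pos hf1 2) hg1)]
        calc e * (f ^ 2 * g) = f ^ 2 * g * e := by ring
          _ = d := hde.symm
          _ ≤ y := hd.2
      calc (rho (b ^ 3 * v ^ 2) d : ℝ) ≤ 4 * (f : ℝ) * G (op e) := hval
        _ = (if d = f ^ 2 * g * e then 4 * (f : ℝ) * G (op e) else 0) := by rw [if_pos hde]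
        _ ≤ ∑ e ∈ Icc 1 (y / (f ^ 2 * g)),
              (if d = f ^ 2 * g * e then 4 * (f : ℝ) * G (op e) else 0) :=
            single_le_sum (f := fun e => if d = f ^ 2 * g * e then 4 * (f : ℝ) * G (op e) else 0)
              (fun e he => hnn f hfmem g hgmem e he) hemem
        _ ≤ ∑ g ∈ N.divisors, ∑ e ∈ Icc 1 (y / (f ^ 2 * g)),
              (if d = f ^ 2 * g * e then 4 * (f : ℝ) * G (op e) else 0) :=
            single_le_sum (f := fun g => ∑ e ∈ Icc 1 (y / (f ^ 2 * g)),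
              (if d = f ^ 2 * g * e then 4 * (f : ℝ) * G (op e) else 0))
              (fun g hg => sum_nonneg fun e he => hnn f hfmem g hg e he) hgmem
        _ ≤ _ :=
            single_le_sum (f := fun f => ∑ g ∈ N.divisors, ∑ e ∈ Icc 1 (y / (f ^ 2 * g)),
              (if d = f ^ 2 * g * e then 4 * (f : ℝ) * G (op e) else 0))
              (fun f hf => sum_nonneg fun g hg => sum_nonneg fun e he => hnn f hf g hg e he) hfmem
  have hL : 0 ≤ 2 + Real.log (4 * b) := by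
    have h1 : (1 : ℝ) ≤ 4 * b := by
      have : (2 : ℝ) ≤ b := by exact_mod_cast hb2
      linarith
    have := Real.log_nonneg h1
    linarith
  have hswap : ∑ d ∈ Icc 1 y, (∑ f ∈ N.divisors, ∑ g ∈ N.divisors,
        ∑ e ∈ Icc 1 (y / (f ^ 2 * g)), if d = f ^ 2 * g * e then 4 * (f : ℝ) * G (op e) else 0)
      = ∑ f ∈ N.divisors, ∑ g ∈ N.divisors, ∑ e ∈ Icc 1 (y / (f ^ 2 * g)),
          ∑ d ∈ Icc 1 y, if d = f ^ 2 * g * e then 4 * (f : ℝ) * G (op e) else 0 := by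
    rw [sum_comm]
    refine sum_congr rfl fun f _ => ?_
    rw [sum_comm]
    refine sum_congr rfl fun g _ => ?_
    rw [sum_comm]
  have hinner : ∀ f ∈ N.divisors, ∀ g ∈ N.divisors,
      ∑ e ∈ Icc 1 (y / (f ^ 2 * g)),
          ∑ d ∈ Icc 1 y, (if d = f ^ 2 * g * e then 4 * (f : ℝ) * G (op e) else 0)
      ≤ 8 * (2 + Real.log (4 * b)) * (y : ℝ) * ((1 / (f : ℝ)) * (1 / (g : ℝ))) := by
    intro f hf g hg
    have hf1 : 0 < f := Nat.pos_of_mem_divisors hf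
    have hg1 : 0 < g := Nat.pos_of_mem_divisors hg
    have hfR : (0 : ℝ) < f := by exact_mod_cast hf1
    have hgR : (0 : ℝ) < g := by exact_mod_cast hg1
    have h1 : ∀ e ∈ Icc 1 (y / (f ^ 2 * g)),
        ∑ d ∈ Icc 1 y, (if d = f ^ 2 * g * e then 4 * (f : ℝ) * G (op e) else 0)
          ≤ 4 * (f : ℝ) * G (op e) := by
      intro e _
      rw [sum_ite_eq' (Icc 1 y) (f ^ 2 * g * e) (fun _ => 4 * (f : ℝ) * G (op e))]
      split_ifs
      · exact le_refl _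
      · have := hGnn (op e)
        positivity
    have h2 := hC2 (y / (f ^ 2 * g))
    have h3 : ((y / (f ^ 2 * g) : ℕ) : ℝ) ≤ (y : ℝ) / ((f : ℝ) ^ 2 * (g : ℝ)) := by
      have := @Nat.cast_div_le ℝ _ _ _ y (f ^ 2 * g)
      push_cast at this
      exact this
    calc ∑ e ∈ Icc 1 (y / (f ^ 2 * g)),
            ∑ d ∈ Icc 1 y, (if d = f ^ 2 * g * e then 4 * (f : ℝ) * G (op e) else 0)
        ≤ ∑ e ∈ Icc 1 (y / (f ^ 2 * g)), 4 * (f : ℝ) * G (op e) := sum_le_sum h1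
      _ = 4 * (f : ℝ) * ∑ e ∈ Icc 1 (y / (f ^ 2 * g)), G (op e) := by rw [mul_sum]
      _ ≤ 4 * (f : ℝ) * (2 * ((y / (f ^ 2 * g) : ℕ) : ℝ) * (2 + Real.log (4 * b))) :=
          mul_le_mul_of_nonneg_left h2 (by positivity)
      _ ≤ 4 * (f : ℝ) * (2 * ((y : ℝ) / ((f : ℝ) ^ 2 * (g : ℝ))) * (2 + Real.log (4 * b))) := by
          refine mul_le_mul_of_nonneg_left ?_ (by positivity)
          refine mul_le_mul_of_nonneg_right ?_ hL
          linarith
      _ = 8 * (2 + Real.log (4 * b)) * (y : ℝ) * ((1 / (f : ℝ)) * (1 / (g : ℝ))) := by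
          field_simp
          ring
  calc ∑ d ∈ Icc 1 y, (rho (b ^ 3 * v ^ 2) d : ℝ)
      ≤ ∑ d ∈ Icc 1 y, (∑ f ∈ N.divisors, ∑ g ∈ N.divisors,
        ∑ e ∈ Icc 1 (y / (f ^ 2 * g)),
          if d = f ^ 2 * g * e then 4 * (f : ℝ) * G (op e) else 0) := sum_le_sum hkey
    _ = _ := hswap
    _ ≤ ∑ f ∈ N.divisors, ∑ g ∈ N.divisors,
          8 * (2 + Real.log (4 * b)) * (y : ℝ) * ((1 / (f : ℝ)) * (1 / (g : ℝ))) :=
        sum_le_sum fun f hf => sum_le_sum fun g hg => hinner f hf g hg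
    _ = 8 * (2 + Real.log (4 * b)) * sg N ^ 2 * (y : ℝ) := by
        have h1 : ∀ f ∈ N.divisors, ∑ g ∈ N.divisors,
            8 * (2 + Real.log (4 * b)) * (y : ℝ) * ((1 / (f : ℝ)) * (1 / (g : ℝ)))
            = 8 * (2 + Real.log (4 * b)) * (y : ℝ) * sg N * (1 / (f : ℝ)) := by
          intro f _
          rw [sg, ← mul_sum, ← mul_sum]
          ring
        rw [sum_congr rfl h1, ← mul_sum]
        rw [sg]
        ring

end Pool.Agent.H2.PSQ
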